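import Pool.Agent.Q260.BC.Defs

/-! Upper broadcast domination minus boundary independence is unbounded on trees. -/

namespace Pool.Agent.Results.MP_4edf50_co.TreeDifference

open Finset Pool.Agent.Q260.BC

section defs

variable {V : Type*} (G : SimpleGraph V)

/-- `f` is a boundary independent broadcast: a vertex hearing `f` from two different broadcasting
vertices is on the boundary of both neighbourhoods. -/
def BnIndep (f : V → ℕ) : Prop :=
  IsBroadcast G f ∧ ∀ u v, u ≠ v → 0 < f u → 0 < f v → ∀ x, G.dist x u ≤ f u → G.dist x v ≤ f v →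
    G.dist x u = f u ∧ G.dist x v = f v

/-- The boundary independence number `α_bn(G)`. -/
noncomputable def bnNumber [Fintype V] : ℕ := sSup {w | ∃ f : V → ℕ, BnIndep G f ∧ ∑ v, f v = w}

end defs

section general

variable {V : Type*} {G : SimpleGraph V}

lemma BnIndep.pair (hG : G.Connected) {f : V → ℕ} (hf : BnIndep G f) {u v : V} (huv : u ≠ v)
    (hu : 0 < f u) (hv : 0 < f v) : f u + f v ≤ G.dist u v := by
  by_contra hcon
  push Not at hcon
  obtain ⟨p, hp⟩ := hG.exists_walk_length_eq_dist u v
  set t := min (f u) (G.dist u v) with ht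
  have htl : t ≤ p.length := by rw [hp]; exact min_le_right _ _
  have h1 : G.dist (p.getVert t) u ≤ t := by
    rw [SimpleGraph.dist_comm]
    have := SimpleGraph.dist_le (p.take t)
    rwa [SimpleGraph.Walk.take_length, min_eq_left htl] at this
  have h2 : G.dist (p.getVert t) v ≤ G.dist u v - t := by
    have := SimpleGraph.dist_le (p.drop t)
    rwa [SimpleGraph.Walk.drop_length, hp] at this
  have h3 := hf.2 u v huv hu hv (p.getVert t) (by omega) (by omega)
  omega

lemma acyclic_of_level (ℓ : V → ℕ) (h : ∀ x y, G.Adj x y → ℓ x ≠ ℓ y)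
    (hp : ∀ x y z, G.Adj x y → G.Adj x z → ℓ y < ℓ x → ℓ z < ℓ x → y = z) : G.IsAcyclic := by
  classical
  intro a w hw
  obtain ⟨u, hu, hmax⟩ := Finset.exists_max_image w.support.toFinset ℓ
    ⟨a, by simp⟩
  rw [List.mem_toFinset] at hu
  have hc := hw.rotate hu
  set c := w.rotate u hu with hcdef
  have hmem : ∀ x ∈ c.support, ℓ x ≤ ℓ u := by
    intro x hx
    apply hmax
    rw [List.mem_toFinset]
    rw [hcdef] at hx
    simpa using hx
  have h1 : G.Adj u c.snd := c.adj_snd hc.not_nil
  have h2 : G.Adj c.penultimate u := c.adj_penultimate hc.not_nil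
  have h3 := hmem c.snd (c.getVert_mem_support 1)
  have h4 := hmem c.penultimate (c.getVert_mem_support _)
  have h5 := h _ _ h1
  have h6 := h _ _ h2
  exact hc.snd_ne_penultimate (hp u c.snd c.penultimate h1 h2.symm (by omega) (by omega))

lemma walk_of_descent (φ : V → ℕ) (x0 : V) (h0 : ∀ x, φ x = 0 → x = x0)
    (hd : ∀ x, φ x ≠ 0 → ∃ y, G.Adj x y ∧ φ y + 1 ≤ φ x) (n : ℕ) :
    ∀ x, φ x ≤ n → ∃ p : G.Walk x x0, p.length ≤ φ x := by
  induction n with
  | zero =>
    intro x hx
    have := h0 x (by omega)
    subst this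
    exact ⟨SimpleGraph.Walk.nil, by simp⟩
  | succ n ih =>
    intro x hx
    by_cases hx0 : φ x = 0
    · have := h0 x hx0
      subst this
      exact ⟨SimpleGraph.Walk.nil, by simp⟩
    · obtain ⟨y, hxy, hy⟩ := hd x hx0
      obtain ⟨p, hp⟩ := ih y (by omega)
      exact ⟨SimpleGraph.Walk.cons hxy p, by rw [SimpleGraph.Walk.length_cons]; omega⟩

lemma minimal_of {f : V → ℕ} (hb : IsBroadcast G f) (hd : Dominating G f)
    (hpb : ∀ v, 0 < f v → ∃ u, ¬ (0 < f v - 1 ∧ G.dist u v ≤ f v - 1) ∧
      ∀ w, w ≠ v → ¬ (0 < f w ∧ G.dist u w ≤ f w)) : MinimalDominating G f := by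
  refine ⟨hb, hd, ?_⟩
  intro g _ hgf hgd
  by_contra hne
  obtain ⟨v, hv⟩ : ∃ v, g v ≠ f v := by
    by_contra hcon
    push Not at hcon
    exact hne (funext hcon)
  have hlt : g v < f v := lt_of_le_of_ne (hgf v) hv
  obtain ⟨u, hu1, hu2⟩ := hpb v (by omega)
  obtain ⟨w, hw0, hw⟩ := hgd u
  by_cases hwv : w = v
  · subst hwv
    exact hu1 ⟨by omega, by omega⟩
  · exact hu2 w hwv ⟨lt_of_lt_of_le hw0 (hgf w), hw.trans (hgf w)⟩

end general

section base

/-- The distance table of the tree on 15 vertices, in base 16. -/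
def tb : ℕ :=
  167690348498842305643302847601951855989397339671359749533067863507984205260634266901728965960444150590443880587881903202505204317030607411608693020098776506337088699869679003152962756688995140014842564248741503997597348725774470393970745183718872556703529939660424941840

/-- Distances of the tree on 15 vertices. -/
def D (u v : Fin 15) : ℕ := (tb >>> (4 * (15 * (u : ℕ) + v))) % 16

/-- The minimal dominating broadcast of weight 12. -/
def f0 (v : Fin 15) : ℕ :=
  if v = 2 then 1 else if v = 3 then 1 else if v = 4 then 1 else if v = 9 then 4 else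
  if v = 13 then 5 else 0

lemma f0_sum : ∑ v, f0 v = 12 := by decide +kernel

lemma D_self : ∀ u, D u u = 0 := by decide +kernel

lemma D_zero : ∀ u v, D u v = 0 → v = u := by decide +kernel

lemma D_comm : ∀ u v, D u v = D v u := by decide +kernel

lemma D_le : ∀ u v, D u v ≤ 9 := by decide +kernel

lemma D_lip : ∀ u v v', D v v' = 1 → D u v ≤ D u v' + 1 := by decide +kernel

lemma D_desc : ∀ u v, D u v ≠ 0 → ∃ v', D v v' = 1 ∧ D u v' + 1 ≤ D u v := by decide +kernel

lemma D_lev : ∀ v v', D v v' = 1 → D v 2 ≠ D v' 2 := by decide +kernel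

lemma D_par : ∀ x y z, D x y = 1 → D x z = 1 → D y 2 < D x 2 → D z 2 < D x 2 → y = z := by
  decide +kernel

lemma D_ecc : ∀ v, ∃ u, f0 v ≤ D v u := by decide +kernel

lemma D_dom : ∀ u, ∃ v, 0 < f0 v ∧ D u v ≤ f0 v := by decide +kernel

lemma D_priv : ∀ v, 0 < f0 v → ∃ u, ¬ (0 < f0 v - 1 ∧ D u v ≤ f0 v - 1) ∧
    ∀ w, w ≠ v → ¬ (0 < f0 w ∧ D u w ≤ f0 w) := by decide +kernel

lemma D_reach : ∀ v, f0 v ≤ D v 2 + 1 := by decide +kernel

/-- Verified search: `chk L c B` implies that every admissible assignment bounded by `c` on the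
vertices in `L` has sum at most `B`. -/
def chk : List (Fin 15) → List ℕ → ℕ → Bool
  | [], _, _ => true
  | _ :: _, [], _ => false
  | v :: vs, c :: cs, B =>
    decide ((c :: cs).sum ≤ B) || (chk vs cs B && (List.range c).all fun t =>
      decide (t + 1 ≤ B) &&
        chk vs (List.zipWith (fun u e => min e (D v u - (t + 1))) vs cs) (B - (t + 1)))

lemma forall₂_zip (g : Fin 15 → ℕ) (v : Fin 15) (vs : List (Fin 15)) (cs : List ℕ)
    (h : List.Forall₂ (fun v c => g v ≤ c) vs cs) (hv : v ∉ vs)
    (hg : ∀ u ∈ vs, g u ≤ D v u - g v) :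
    List.Forall₂ (fun v c => g v ≤ c) vs
      (List.zipWith (fun u e => min e (D v u - g v)) vs cs) := by
  induction h with
  | nil => simp
  | @cons u c vs cs h1 h2 ih =>
    rw [List.zipWith_cons_cons]
    refine List.Forall₂.cons ?_ (ih (fun hm => hv (List.mem_cons_of_mem _ hm))
      (fun w hw => hg w (List.mem_cons_of_mem _ hw)))
    exact le_min h1 (hg u List.mem_cons_self)

lemma sum_le_of_forall₂ (g : Fin 15 → ℕ) (vs : List (Fin 15)) (cs : List ℕ)
    (h : List.Forall₂ (fun v c => g v ≤ c) vs cs) : (vs.map g).sum ≤ cs.sum := by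
  induction h with
  | nil => simp
  | cons h1 _ ih =>
    rw [List.map_cons, List.sum_cons, List.sum_cons]
    omega

lemma chk_sound (g : Fin 15 → ℕ)
    (hg : ∀ u v, u ≠ v → 0 < g u → 0 < g v → g u + g v ≤ D u v) :
    ∀ (vs : List (Fin 15)) (cs : List ℕ) (B : ℕ), chk vs cs B = true → vs.Nodup →
      List.Forall₂ (fun v c => g v ≤ c) vs cs → (vs.map g).sum ≤ B
  | [], _, B, _, _, _ => by simp
  | v :: vs, [], B, h, _, _ => by simp [chk] at h
  | v :: vs, c :: cs, B, h, hnd, hf => by
    unfold chk at h
    rw [Bool.or_eq_true] at h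
    rcases h with h | h
    · exact (sum_le_of_forall₂ g _ _ hf).trans (of_decide_eq_true h)
    · rw [Bool.and_eq_true] at h
      obtain ⟨h1, h2⟩ := h
      rw [List.nodup_cons] at hnd
      rw [List.forall₂_cons] at hf
      rw [List.map_cons, List.sum_cons]
      by_cases hv : g v = 0
      · rw [hv, zero_add]
        exact chk_sound g hg vs cs B h1 hnd.2 hf.2
      · rw [List.all_eq_true] at h2
        have h3 := h2 (g v - 1) (by rw [List.mem_range]; omega)
        rw [Bool.and_eq_true] at h3
        obtain ⟨h4, h5⟩ := h3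
        have h4' := of_decide_eq_true h4
        have e : g v - 1 + 1 = g v := by omega
        rw [e] at h4' h5
        have h6 := chk_sound g hg vs _ _ h5 hnd.2
          (forall₂_zip g v vs cs hf.2 hnd.1 (by
            intro u hu
            have huv : v ≠ u := fun hvu => hnd.1 (hvu ▸ hu)
            by_cases hu0 : g u = 0
            · omega
            · have := hg v u huv (by omega) (by omega)
              omega))
        omega

/-- The order of the search. -/
def ord : List (Fin 15) := [7, 8, 10, 0, 1, 11, 2, 12, 3, 6, 5, 14, 9, 13, 4]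

lemma chk_ord : chk ord (List.replicate 15 11) 11 = true := by decide +kernel

lemma sum_le_eleven (g : Fin 15 → ℕ)
    (hg : ∀ u v, u ≠ v → 0 < g u → 0 < g v → g u + g v ≤ D u v) (h11 : ∀ v, g v ≤ 11) :
    ∑ v, g v ≤ 11 := by
  have h1 : (ord.map g).sum ≤ 11 := by
    apply chk_sound g hg ord _ 11 chk_ord (by decide)
    simp only [ord, List.replicate_succ, List.replicate_zero]
    simp [h11]
  have h2 : ∑ v, g v = (ord.map g).sum := by
    have e : (Finset.univ : Finset (Fin 15)) = ord.toFinset := by decide
    rw [e, List.sum_toFinset _ (by decide)]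
  rw [h2]
  exact h1

end base

section tree

/-- The tree `T_k`: a hub joined to the vertex `2` of each of `k` copies of the base tree. -/
def T (k : ℕ) : SimpleGraph (Option (Fin k × Fin 15)) where
  Adj
    | none, none => False
    | none, some (_, u) => u = 2
    | some (_, u), none => u = 2
    | some (i, u), some (j, v) => i = j ∧ D u v = 1
  symm := ⟨by
    rintro (_ | ⟨i, u⟩) (_ | ⟨j, v⟩) h
    · exact h
    · exact h
    · exact h
    · exact ⟨h.1.symm, by rw [D_comm]; exact h.2⟩⟩
  loopless := ⟨by
    rintro (_ | ⟨i, u⟩) h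
    · exact h
    · have := h.2
      rw [D_self] at this
      omega⟩

variable {k : ℕ}

/-- The distance from `(i, u)`. -/
def phi (i : Fin k) (u : Fin 15) : Option (Fin k × Fin 15) → ℕ
  | none => D u 2 + 1
  | some (j, v) => if j = i then D u v else D u 2 + D v 2 + 2

lemma phi_zero (i : Fin k) (u : Fin 15) (x : Option (Fin k × Fin 15)) (h : phi i u x = 0) :
    x = some (i, u) := by
  rcases x with _ | ⟨j, v⟩
  · simp [phi] at h
  · by_cases hj : j = i
    · simp only [phi, if_pos hj] at h
      rw [hj, D_zero u v h]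
    · simp only [phi, if_neg hj] at h
      omega

lemma phi_desc (i : Fin k) (u : Fin 15) (x : Option (Fin k × Fin 15)) (h : phi i u x ≠ 0) :
    ∃ y, (T k).Adj x y ∧ phi i u y + 1 ≤ phi i u x := by
  rcases x with _ | ⟨j, v⟩
  · refine ⟨some (i, 2), rfl, ?_⟩
    simp [phi]
  · by_cases hj : j = i
    · subst hj
      simp only [phi, if_true] at h ⊢
      obtain ⟨v', h1, h2⟩ := D_desc u v h
      refine ⟨some (j, v'), ⟨rfl, h1⟩, ?_⟩
      simpa [phi] using h2
    · by_cases hv : D 2 v = 0
      · have hv2 := D_zero 2 v hv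
        refine ⟨none, hv2, ?_⟩
        simp [phi, hj]
      · obtain ⟨v', h1, h2⟩ := D_desc 2 v hv
        refine ⟨some (j, v'), ⟨rfl, h1⟩, ?_⟩
        simp only [phi, if_neg hj]
        rw [D_comm v 2, D_comm v' 2]
        omega

lemma T_connected : (T k).Connected := by
  have key : ∀ x, (T k).Reachable x none := by
    rintro (_ | ⟨i, u⟩)
    · exact SimpleGraph.Reachable.refl _
    · obtain ⟨p, -⟩ := walk_of_descent (phi i u) (some (i, u)) (phi_zero i u) (phi_desc i u) _
        none le_rfl
      exact ⟨p.reverse⟩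
  exact ⟨fun x y => (key x).trans (key y).symm⟩

lemma T_dist (i : Fin k) (u : Fin 15) (x : Option (Fin k × Fin 15)) :
    (T k).dist x (some (i, u)) = phi i u x := by
  apply le_antisymm
  · obtain ⟨p, hp⟩ := walk_of_descent (phi i u) (some (i, u)) (phi_zero i u) (phi_desc i u) _
      x le_rfl
    exact (SimpleGraph.dist_le p).trans hp
  · have h1 := lip_le_dist (T_connected (k := k)) (phi i u) ?_ x (some (i, u))
    · have h2 : phi i u (some (i, u)) = 0 := by simp [phi, D_self]
      omega
    · rintro (_ | ⟨j, v⟩) (_ | ⟨j', v'⟩) h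
      · exact h.elim
      · have hv : v' = 2 := h
        subst hv
        by_cases hj : j' = i
        · simp [phi, hj]
        · simp only [phi, if_neg hj]
          omega
      · have hv : v = 2 := h
        subst hv
        by_cases hj : j = i
        · simp only [phi, if_pos hj]
          omega
        · simp only [phi, if_neg hj, D_self]
          omega
      · obtain ⟨hjj, hd⟩ := h
        subst hjj
        by_cases hj : j = i
        · simp only [phi, if_pos hj]
          exact D_lip u v v' hd
        · simp only [phi, if_neg hj]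
          have := D_lip 2 v v' hd
          rw [D_comm 2 v, D_comm 2 v'] at this
          omega

lemma T_dist' (i : Fin k) (u : Fin 15) (x : Option (Fin k × Fin 15)) :
    (T k).dist (some (i, u)) x = phi i u x := by
  rw [SimpleGraph.dist_comm, T_dist]

/-- The level of a vertex: its distance from the hub. -/
def lev : Option (Fin k × Fin 15) → ℕ
  | none => 0
  | some (_, v) => D v 2 + 1

lemma T_acyclic : (T k).IsAcyclic := by
  apply acyclic_of_level lev
  · rintro (_ | ⟨j, v⟩) (_ | ⟨j', v'⟩) h
    · exact h.elim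
    · simp [lev]
    · simp [lev]
    · have := D_lev v v' h.2
      simp only [lev]
      omega
  · rintro (_ | ⟨j, x⟩) (_ | ⟨j', y⟩) (_ | ⟨j'', z⟩) h1 h2 h3 h4
    · rfl
    · exact h1.elim
    · exact h2.elim
    · simp [lev] at h3
    · rfl
    · have hx : x = 2 := h1
      subst hx
      simp only [lev, D_self] at h4
      have := D_zero 2 z (by rw [D_comm]; omega)
      subst this
      exact absurd h2.2 (by rw [D_self]; omega)
    · have hx : x = 2 := h2
      subst hx
      simp only [lev, D_self] at h3
      have := D_zero 2 y (by rw [D_comm]; omega)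
      subst this
      exact absurd h1.2 (by rw [D_self]; omega)
    · obtain ⟨e1, h1'⟩ := h1
      obtain ⟨e2, h2'⟩ := h2
      subst e1
      subst e2
      simp only [lev] at h3 h4
      rw [D_par x y z h1' h2' (by omega) (by omega)]

/-- The broadcast: the base broadcast on each copy. -/
def F : Option (Fin k × Fin 15) → ℕ
  | none => 0
  | some (_, v) => f0 v

lemma F_sum : ∑ x : Option (Fin k × Fin 15), F x = 12 * k := by
  rw [Fintype.sum_option, Fintype.sum_prod_type]
  simp only [F, f0_sum, zero_add, Finset.sum_const, Finset.card_univ, Fintype.card_fin,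
    smul_eq_mul]
  ring

lemma F_minimal (hk : 0 < k) : MinimalDominating (T k) F := by
  apply minimal_of
  · rintro (_ | ⟨i, v⟩)
    · exact ⟨none, by simp [F]⟩
    · obtain ⟨u, hu⟩ := D_ecc v
      refine ⟨some (i, u), ?_⟩
      rw [T_dist']
      simpa [F, phi] using hu
  · rintro (_ | ⟨i, u⟩)
    · have h2 : f0 2 = 1 := by decide
      refine ⟨some (⟨0, hk⟩, 2), ?_, ?_⟩
      · simp only [F, h2]
        exact Nat.one_pos
      · rw [T_dist]
        simp only [phi, F, D_self, h2]
        exact le_refl _
    · obtain ⟨v, hv0, hv⟩ := D_dom u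
      refine ⟨some (i, v), hv0, ?_⟩
      rw [T_dist]
      simp only [phi, F, if_true]
      rwa [D_comm]
  · rintro (_ | ⟨i, v⟩) h0
    · simp [F] at h0
    · obtain ⟨u, hu1, hu2⟩ := D_priv v h0
      refine ⟨some (i, u), ?_, ?_⟩
      · rw [T_dist]
        simp only [phi, F, if_true]
        rwa [D_comm v u]
      · rintro (_ | ⟨j, w⟩) hw
        · simp [F]
        · rw [T_dist]
          simp only [phi, F]
          by_cases hj : i = j
          · rw [if_pos hj]
            subst hj
            have hwv : w ≠ v := fun e => hw (by rw [e])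
            rw [D_comm w u]
            exact hu2 w hwv
          · rw [if_neg hj]
            have := D_reach w
            omega

lemma bn_le (g : Option (Fin k × Fin 15) → ℕ) (hg : BnIndep (T k) g) :
    ∑ x, g x ≤ 11 * k + 30 := by
  have hpair : ∀ i u j v, ((i, u) : Fin k × Fin 15) ≠ (j, v) → 0 < g (some (i, u)) →
      0 < g (some (j, v)) → g (some (i, u)) + g (some (j, v)) ≤ phi i u (some (j, v)) := by
    intro i u j v hne h1 h2
    have := hg.pair T_connected (fun e => hne (Option.some.inj e)) h1 h2
    rwa [T_dist'] at this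
  have hphi : ∀ i u x, phi (k := k) i u x ≤ 20 := by
    rintro i u (_ | ⟨j, v⟩)
    · have := D_le u 2
      simp only [phi]
      omega
    · have h1 := D_le u 2
      have h2 := D_le v 2
      have h3 := D_le u v
      by_cases hj : j = i
      · simp only [phi, if_pos hj]
        omega
      · simp only [phi, if_neg hj]
        omega
  have hval : ∀ i u, g (some (i, u)) ≤ 20 := by
    intro i u
    obtain ⟨x, hx⟩ := hg.1 (some (i, u))
    rw [T_dist'] at hx
    exact hx.trans (hphi i u x)
  have hhub : g none ≤ 10 := by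
    obtain ⟨x, hx⟩ := hg.1 none
    rcases x with _ | ⟨j, v⟩
    · rw [SimpleGraph.dist_self] at hx
      omega
    · rw [T_dist] at hx
      have := D_le v 2
      simp only [phi] at hx
      omega
  have hsmall : ∀ i, (∀ u, g (some (i, u)) ≤ 11) → ∑ u, g (some (i, u)) ≤ 11 := by
    intro i hi
    apply sum_le_eleven (fun u => g (some (i, u))) _ hi
    intro u v huv h1 h2
    have := hpair i u i v (fun e => huv (Prod.ext_iff.1 e).2) h1 h2
    simpa [phi] using this
  have hbig : ∀ i, (∃ u, 11 < g (some (i, u))) → ∑ u, g (some (i, u)) ≤ 20 := by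
    rintro i ⟨u, hu⟩
    rw [Finset.sum_eq_single u]
    · exact hval i u
    · intro v _ hv
      by_contra hv0
      have h1 := hpair i u i v (fun e => hv (Prod.ext_iff.1 e).2.symm) (by omega) (by omega)
      have h2 := D_le u v
      simp only [phi, if_true] at h1
      omega
    · simp
  rw [Fintype.sum_option, Fintype.sum_prod_type]
  by_cases hb : ∃ i : Fin k, ∃ u, 11 < g (some (i, u))
  · obtain ⟨i, u, hu⟩ := hb
    have hrest : ∀ j ∈ Finset.univ.erase i, ∑ v, g (some (j, v)) ≤ 11 := by
      intro j hj
      apply hsmall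
      intro v
      by_contra hv
      push Not at hv
      have hji : j ≠ i := (Finset.mem_erase.1 hj).1
      have h1 := hpair i u j v (fun e => hji (Prod.ext_iff.1 e).1.symm) (by omega) (by omega)
      have h2 := hphi i u (some (j, v))
      omega
    rw [← Finset.add_sum_erase _ _ (Finset.mem_univ i)]
    have h1 := hbig i ⟨u, hu⟩
    have h2 := Finset.sum_le_sum hrest
    have h3 : ∑ _j ∈ Finset.univ.erase i, 11 ≤ 11 * k := by
      rw [Finset.sum_const, smul_eq_mul, Finset.card_erase_of_mem (Finset.mem_univ i),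
        Finset.card_univ, Fintype.card_fin]
      omega
    omega
  · push Not at hb
    have h2 : ∑ i : Fin k, ∑ u, g (some (i, u)) ≤ ∑ _i : Fin k, 11 :=
      Finset.sum_le_sum (fun i _ => hsmall i (hb i))
    have h3 : ∑ _i : Fin k, 11 = 11 * k := by
      rw [Finset.sum_const, smul_eq_mul, Finset.card_univ, Fintype.card_fin]
      ring
    omega

end tree

/-- The difference `Γ_b(T) - α_bn(T)` is unbounded over trees `T`. -/
theorem result : ∀ C : ℕ, ∃ (V : Type) (_ : Fintype V) (G : SimpleGraph V),
    G.IsTree ∧ bnNumber G + C < upperBroadcast G := by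
  intro C
  refine ⟨Option (Fin (C + 31) × Fin 15), inferInstance, T (C + 31),
    ⟨T_connected, T_acyclic⟩, ?_⟩
  have h1 : 12 * (C + 31) ≤ upperBroadcast (T (C + 31)) := by
    rw [← F_sum]
    exact le_upperBroadcast T_connected (F_minimal (by omega))
  have h2 : bnNumber (T (C + 31)) ≤ 11 * (C + 31) + 30 := by
    unfold bnNumber
    apply csSup_le
    · refine ⟨0, fun _ => 0, ⟨fun v => ⟨v, by simp⟩, ?_⟩, by simp⟩
      intro u v _ h
      exact absurd h (by simp)
    · rintro w ⟨g, hg, rfl⟩
      exact bn_le g hg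
  omega

end Pool.Agent.Results.MP_4edf50_co.TreeDifference
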